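import Mathlib

/-!
# MP_446be6_nt: infinitely many admissible pairs `(u, u + 2)`

For infinitely many `u` the largest prime factor of `u (u + 1) (u + 2)` occurs in this product with
exponent at least two.

Let `X n + Y n √2 = (1 + √2) ^ n`. Then `X n ^ 2 - 1`, `X n ^ 2`, `X n ^ 2 + 1` are
`2 * Y n ^ 2`, `X n ^ 2` and `2 * Y (n - 1) * Y (n + 1)` (in some order). If the largest prime factor
of the product of these three numbers divides `X n * Y n`, then the pair `(X n ^ 2 - 1, X n ^ 2 + 1)` is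
admissible. If this fails for all `n ≥ N`, then every prime factor of `Y (2 n) = 2 * X n * Y n` is
bounded by a prime factor of `Y (n - 1) * Y (n + 1)`, for all `n ≥ N`; by descent all prime factors of all
numbers `Y n`, `n ≥ 1`, are bounded by a constant. But every prime divides some `Y n`, `n ≥ 1`.
-/

set_option autoImplicit false

namespace Pool.Agent.Results.MP_446be6_nt.ThreeInfinite

/-- `(X n, Y n)` with `X n + Y n √2 = (1 + √2) ^ n`. -/
def XY : ℕ → ℕ × ℕ
  | 0 => (1, 0)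
  | n + 1 => ((XY n).1 + 2 * (XY n).2, (XY n).1 + (XY n).2)

/-- The rational part. -/
def X (n : ℕ) : ℕ := (XY n).1

/-- The irrational part (Pell numbers). -/
def Y (n : ℕ) : ℕ := (XY n).2

lemma X_zero : X 0 = 1 := rfl

lemma Y_zero : Y 0 = 0 := rfl

lemma X_succ (n : ℕ) : X (n + 1) = X n + 2 * Y n := rfl

lemma Y_succ (n : ℕ) : Y (n + 1) = X n + Y n := rfl

lemma X_pos (n : ℕ) : 1 ≤ X n := by
  induction n with
  | zero => exact le_of_eq X_zero.symm
  | succ n ih => rw [X_succ]; omega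

lemma Y_pos {n : ℕ} (hn : 1 ≤ n) : 1 ≤ Y n := by
  obtain ⟨m, rfl⟩ : ∃ m, n = m + 1 := ⟨n - 1, by omega⟩
  rw [Y_succ]
  have := X_pos m
  omega

lemma X_ge {n : ℕ} (hn : 2 ≤ n) : n + 1 ≤ X n := by
  induction n, hn using Nat.le_induction with
  | base =>
    rw [X_succ, X_succ, Y_succ, X_zero, Y_zero]
  | succ n hn ih =>
    rw [X_succ]
    have := Y_pos (show 1 ≤ n by omega)
    omega

lemma pell (n : ℕ) : (X n : ℤ) ^ 2 = 2 * (Y n : ℤ) ^ 2 + (-1) ^ n := by
  induction n with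
  | zero => rw [X_zero, Y_zero]; norm_num
  | succ n ih =>
    rw [X_succ, Y_succ, pow_succ (-1 : ℤ) n]
    push_cast
    linear_combination -ih

lemma cassini (n : ℕ) : (Y n : ℤ) * Y (n + 2) = (Y (n + 1) : ℤ) ^ 2 + (-1) ^ (n + 1) := by
  have h := pell n
  rw [Y_succ (n + 1), X_succ, Y_succ, pow_succ (-1 : ℤ) n]
  push_cast
  linear_combination -h

lemma XY_add (m n : ℕ) : X (m + n) = X m * X n + 2 * Y m * Y n ∧
    Y (m + n) = X m * Y n + Y m * X n := by
  induction n with
  | zero => rw [add_zero, X_zero, Y_zero]; constructor <;> ring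
  | succ n ih =>
    rw [← add_assoc, X_succ (m + n), Y_succ (m + n), ih.1, ih.2, X_succ n, Y_succ n]
    constructor <;> ring

lemma Y_double (n : ℕ) : Y (2 * n) = 2 * (X n * Y n) := by
  rw [two_mul, (XY_add n n).2]
  ring

/-- Every prime divides a Pell number with positive index. -/
lemma exists_dvd (p : ℕ) (hp : p.Prime) : ∃ n, 1 ≤ n ∧ p ∣ Y n := by
  have : Fact p.Prime := ⟨hp⟩
  let g : Equiv.Perm (ZMod p × ZMod p) :=
    { toFun := fun a => (a.1 + 2 * a.2, a.1 + a.2)
      invFun := fun a => (2 * a.2 - a.1, a.1 - a.2)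
      left_inv := fun a => by ext <;> simp <;> ring
      right_inv := fun a => by ext <;> simp <;> ring }
  have h : ∀ n, (g ^ n) (1, 0) = ((X n : ZMod p), (Y n : ZMod p)) := by
    intro n
    induction n with
    | zero => rw [pow_zero, Equiv.Perm.one_apply, X_zero, Y_zero]; simp
    | succ n ih =>
      rw [pow_succ', Equiv.Perm.mul_apply, ih, X_succ, Y_succ]
      push_cast
      rfl
  refine ⟨orderOf g, orderOf_pos g, ?_⟩
  have h1 := h (orderOf g)
  rw [pow_orderOf_eq_one, Equiv.Perm.one_apply] at h1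
  have h2 := congrArg Prod.snd h1
  exact (ZMod.natCast_eq_zero_iff _ _).1 h2.symm

/-- The largest prime factor of `X n * Y n * Y (n - 1) * Y (n + 1)` divides `X n * Y n`. -/
def Good (n : ℕ) : Prop :=
  ∃ p : ℕ, p.Prime ∧ p ∣ X n * Y n ∧
    ∀ q : ℕ, q.Prime → q ∣ X n * Y n * (Y (n - 1) * Y (n + 1)) → q ≤ p

lemma not_good {n : ℕ} (hn : 2 ≤ n) (h : ¬ Good n) {p : ℕ} (hp : p.Prime) (hpn : p ∣ X n * Y n) :
    ∃ q : ℕ, q.Prime ∧ q ∣ Y (n - 1) * Y (n + 1) ∧ p ≤ q := by
  have hpos : X n * Y n ≠ 0 := by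
    have h1 := X_pos n
    have h2 := Y_pos (show 1 ≤ n by omega)
    positivity
  have hne : (X n * Y n).primeFactors.Nonempty := ⟨p, Nat.mem_primeFactors.2 ⟨hp, hpn, hpos⟩⟩
  set P := (X n * Y n).primeFactors.max' hne with hP
  have hPm : P ∈ (X n * Y n).primeFactors := Finset.max'_mem _ _
  have hPp := Nat.mem_primeFactors.1 hPm
  have hle : ∀ q, q ∈ (X n * Y n).primeFactors → q ≤ P := fun q hq => Finset.le_max' _ _ hq
  by_contra hcon
  push Not at hcon
  refine h ⟨P, hPp.1, hPp.2.1, fun q hq hqd => ?_⟩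
  rcases (Nat.Prime.dvd_mul hq).1 hqd with h1 | h1
  · exact hle q (Nat.mem_primeFactors.2 ⟨hq, h1, hpos⟩)
  · exact ((hcon q hq h1).trans_le (hle p (Nat.mem_primeFactors.2 ⟨hp, hpn, hpos⟩))).le

/-- Good indices are unbounded. -/
lemma exists_good (N : ℕ) : ∃ n, N ≤ n ∧ 2 ≤ n ∧ Good n := by
  by_contra hcon
  push Not at hcon
  have hbad : ∀ n, N + 2 ≤ n → ¬ Good n := fun n hn => hcon n (by omega) (by omega)
  set B := 2 + ∑ m ∈ Finset.range (2 * N + 8), Y m with hB
  have hsmall : ∀ m, m < 2 * N + 8 → 1 ≤ m → ∀ p : ℕ, p.Prime → p ∣ Y m → p ≤ B := by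
    intro m hm hm1 p hp hpm
    have h1 : p ≤ Y m := Nat.le_of_dvd (Y_pos hm1) hpm
    have h2 : Y m ≤ ∑ m ∈ Finset.range (2 * N + 8), Y m :=
      Finset.single_le_sum (f := Y) (fun _ _ => Nat.zero_le _) (Finset.mem_range.2 hm)
    omega
  have hall : ∀ n, 1 ≤ n → ∀ p : ℕ, p.Prime → p ∣ Y n → p ≤ B := by
    intro n
    induction n using Nat.strong_induction_on with
    | _ n ih =>
      -- the doubling step
      have hdbl : ∀ m, N + 2 ≤ m → m + 1 < n → ∀ p : ℕ, p.Prime → p ∣ Y (2 * m) → p ≤ B := by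
        intro m hm hmn p hp hpd
        rw [Y_double] at hpd
        rcases (Nat.Prime.dvd_mul hp).1 hpd with h1 | h1
        · have := Nat.le_of_dvd (by norm_num) h1
          omega
        · obtain ⟨q, hq, hqd, hpq⟩ := not_good (by omega) (hbad m hm) hp h1
          refine hpq.trans ?_
          rcases (Nat.Prime.dvd_mul hq).1 hqd with h2 | h2
          · exact ih (m - 1) (by omega) (by omega) q hq h2
          · exact ih (m + 1) hmn (by omega) q hq h2
      intro hn p hp hpn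
      by_cases hsm : n < 2 * N + 8
      · exact hsmall n hsm hn p hp hpn
      · rcases Nat.even_or_odd' n with ⟨m, hm | hm⟩
        · subst hm
          exact hdbl m (by omega) (by omega) p hp hpn
        · obtain ⟨q, hq, hqd, hpq⟩ := not_good (by omega) (hbad n (by omega)) hp
            (hpn.mul_left (X n))
          refine hpq.trans ?_
          rcases (Nat.Prime.dvd_mul hq).1 hqd with h2 | h2
          · exact ih (n - 1) (by omega) (by omega) q hq h2
          · have h3 : n + 1 = 2 * (m + 1) := by omega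
            rw [h3] at h2
            exact hdbl (m + 1) (by omega) (by omega) q hq h2
  obtain ⟨p, hpB, hp⟩ := Nat.exists_infinite_primes (B + 1)
  obtain ⟨n, hn, hpn⟩ := exists_dvd p hp
  have := hall n hn p hp hpn
  omega

/-- For infinitely many `u` the largest prime factor of `u (u + 1) (u + 2)` occurs in this product with
exponent at least two. -/
theorem result : ∀ N : ℕ, ∃ u : ℕ, N ≤ u ∧ 1 ≤ u ∧
    ∃ p : ℕ, p.Prime ∧ p ^ 2 ∣ ∏ m ∈ Finset.Icc u (u + 2), m ∧
      ∀ q : ℕ, q.Prime → q ∣ ∏ m ∈ Finset.Icc u (u + 2), m → q ≤ p := by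
  intro N
  obtain ⟨n, hNn, hn2, p, hp, hpd, hmax⟩ := exists_good N
  have hX := X_ge hn2
  obtain ⟨k, rfl⟩ : ∃ k, n = k + 1 := ⟨n - 1, by omega⟩
  have hsq : X (k + 1) * 1 ≤ X (k + 1) * X (k + 1) := Nat.mul_le_mul_left _ (by omega)
  have hsq2 : X (k + 1) * 2 ≤ X (k + 1) * X (k + 1) := Nat.mul_le_mul_left _ (by omega)
  obtain ⟨u, hu⟩ : ∃ u, X (k + 1) ^ 2 = u + 1 := ⟨X (k + 1) ^ 2 - 1, by
    rw [sq]
    omega⟩
  have huN : k + 1 ≤ u := by
    rw [sq] at hu
    omega
  have hprod : ∏ m ∈ Finset.Icc u (u + 2), m =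
      4 * (X (k + 1) * Y (k + 1)) ^ 2 * (Y k * Y (k + 2)) := by
    have h1 : Finset.Icc u (u + 2) = {u, u + 1, u + 2} := by
      ext m
      simp only [Finset.mem_Icc, Finset.mem_insert, Finset.mem_singleton]
      omega
    rw [h1, Finset.prod_insert (by simp), Finset.prod_insert (by simp), Finset.prod_singleton]
    have h2 : (u : ℤ) + 1 = (X (k + 1) : ℤ) ^ 2 := by exact_mod_cast hu.symm
    have h3 := pell (k + 1)
    have h4 := cassini k
    have h5 : ((-1 : ℤ) ^ (k + 1)) ^ 2 = 1 := by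
      rw [← pow_mul, mul_comm, pow_mul]
      norm_num
    have h6 : ((u * ((u + 1) * (u + 2)) : ℕ) : ℤ) =
        ((4 * (X (k + 1) * Y (k + 1)) ^ 2 * (Y k * Y (k + 2)) : ℕ) : ℤ) := by
      push_cast
      have h7 : (u : ℤ) = (X (k + 1) : ℤ) ^ 2 - 1 := by linarith
      rw [h7, h4]
      set s : ℤ := (-1 : ℤ) ^ (k + 1)
      rw [mul_pow]
      set x2 : ℤ := (X (k + 1) : ℤ) ^ 2
      set y2 : ℤ := (Y (k + 1) : ℤ) ^ 2
      rw [h3]
      linear_combination (2 * y2 + s) * h5
    exact_mod_cast h6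
  refine ⟨u, by omega, by omega, p, hp, ?_, ?_⟩
  · rw [hprod]
    exact ((pow_dvd_pow_of_dvd hpd 2).mul_left 4).mul_right _
  · intro q hq hqd
    rw [hprod] at hqd
    rcases (Nat.Prime.dvd_mul hq).1 hqd with h1 | h1
    · rcases (Nat.Prime.dvd_mul hq).1 h1 with h2 | h2
      · have h3 : q ∣ 2 ^ 2 := by simpa using h2
        have h4 := Nat.le_of_dvd (by norm_num) (hq.dvd_of_dvd_pow h3)
        exact h4.trans hp.two_le
      · exact hmax q hq ((hq.dvd_of_dvd_pow h2).mul_right _)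
    · refine hmax q hq (Dvd.dvd.mul_left ?_ _)
      rw [Nat.add_sub_cancel]
      exact h1

end Pool.Agent.Results.MP_446be6_nt.ThreeInfinite
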